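import Pool.Agent.NH69.CH.Fin

/-!
# Centralizers of normal and commensurated subgroups of the holonomy of closed affine manifolds

Chern's conjecture says that closed affine manifolds have Euler characteristic zero. A closed affine manifold with
non-zero Euler characteristic has no finite covering with a vector field without zeros (Poincare and Hopf).

1. Let `Γ \ X` be a closed affine manifold no finite covering of which has a vector field without zeros. Then, after
a finite covering, there is an invariant affine subspace `H` of positive dimension which meets the developing image,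
such that the following holds for every subgroup `K` of finite index. Let `W` be a `K`-invariant subspace of the direction
of `H`, and let `N` be a subgroup of `K` which is normalised by `K`. If `N` acts non-trivially on every irreducible factor
of the linear holonomy of `K` between `W` and the direction of `H`, then the identity is the only affine map of `H / W`
(invertible or not) which commutes with `N`. The same holds for commensurated subgroups `N` and the maps which commute
with a subgroup of finite index of `N`. If `H / W` has an irreducible linear part, and the subgroups `A`, `B` are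
normalised by `K` and commute, then `A` or `B` acts trivially on `H / W`, or both act by translations (for commensurated
subgroups: or subgroups of finite index of both act by translations).

2. Let `Γ \ X` be any closed affine manifold of positive dimension and let `K` be a subgroup of finite index with an
irreducible linear holonomy. If `K` normalises a subgroup `N` which does not consist of translations and which commutes with
an affine map that is not the identity, then the covering `K \ X` is radiant: the holonomy fixes a point `p` outside of the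
developing image, and `dev x - p` is a vector field without zeros, so that the Euler characteristic is zero. For example,
this is so if the dimension is at least two and the holonomy group of `K` is a direct product of two non-trivial groups. The
same holds if `K` commensurates `N`, no subgroup of finite index of `N` consists of translations, and one of them commutes with
an affine map that is not the identity.

Method. If `N` acts non-trivially on all the irreducible factors, then the identity of `V / W` is a linear combination of the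
`a - 1`, `a ∈ N` (`Pool/Agent/NH69/CH/Alg.lean`; for commensurated subgroups the translates of a minimal invariant subspace are
used, as in Clifford's theorem). The same combination of the displacements `a p - p` gives a common fixed point of all the affine
maps that commute with `N`. The set of these points is an affine subspace which is invariant under `K`. The existence of `H`
without proper invariant affine subspaces is a theorem of the starting files (`Pool/Agent/Y150/Ch`).
-/

set_option autoImplicit false

open Set Filter Topology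

namespace Pool.Agent.Results.MP_1fa9a4_gt.AffineCentralizers

/-- A closed affine manifold `Γ \ X` modelled on the vector space `E`: the group `Γ` acts on the
Hausdorff space `X` properly discontinuously and with compact quotient, and the developing map
`dev` is a local homeomorphism to `E` that is equivariant with respect to the affine holonomy
`hol`. -/
structure ClosedAffine (X Γ E : Type) [TopologicalSpace X] [Group Γ] [MulAction Γ X]
    [NormedAddCommGroup E] [NormedSpace ℝ E] (dev : X → E) (hol : Γ →* (E ≃ᵃ[ℝ] E)) : Prop where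
  /-- the developing map is a local homeomorphism -/
  loc : IsLocalHomeomorph dev
  /-- the group acts by homeomorphisms -/
  cont : ∀ γ : Γ, Continuous fun x : X => γ • x
  /-- the developing map is equivariant -/
  equi : ∀ (γ : Γ) (x : X), dev (γ • x) = hol γ (dev x)
  /-- the action is properly discontinuous -/
  pd : ∀ K : Set X, IsCompact K → {γ : Γ | ∃ x ∈ K, γ • x ∈ K}.Finite
  /-- the quotient is compact -/
  cc : ∃ K : Set X, IsCompact K ∧ ∀ x : X, ∃ γ : Γ, ∃ k ∈ K, γ • k = x

variable {X Γ E : Type} [TopologicalSpace X] [Group Γ] [MulAction Γ X] [NormedAddCommGroup E]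
  [NormedSpace ℝ E]

/-- The affine action of the group on the model space. -/
def act (hol : Γ →* (E ≃ᵃ[ℝ] E)) (γ : Γ) (q : E) : E := hol γ q

/-- The linear holonomy. -/
def lin (hol : Γ →* (E ≃ᵃ[ℝ] E)) (γ : Γ) : E →ₗ[ℝ] E := (hol γ).linear

section

variable (φ : Γ → E → E) (l : Γ → E →ₗ[ℝ] E)

/-- The set `S` is invariant under `K`. -/
def Invariant (K : Subgroup Γ) (S : Set E) : Prop := ∀ γ ∈ K, ∀ q ∈ S, φ γ q ∈ S

/-- The linear subspace `W` is invariant under `K`. -/
def LinInvariant (K : Subgroup Γ) (W : Submodule ℝ E) : Prop := ∀ γ ∈ K, ∀ v ∈ W, l γ v ∈ W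

/-- The transformations of `H` given by the elements of `N` form a group which is normalised by
the one given by `K`. -/
def Normalises (K N : Subgroup Γ) (H : Set E) : Prop :=
  ∀ γ ∈ K, ∀ a ∈ N, ∃ b ∈ N, ∀ q ∈ H, φ (γ * a * γ⁻¹) q = φ b q

/-- The subgroup `L` does not act trivially on `W₂ / W₁` for any `K`-invariant subspaces `W₁ < W₂` between `W` and `V`. -/
def NoTrivialFactor (K L : Subgroup Γ) (W V : Submodule ℝ E) : Prop :=
  ∀ W₁ W₂ : Submodule ℝ E, W ≤ W₁ → W₁ < W₂ → W₂ ≤ V → LinInvariant l K W₁ → LinInvariant l K W₂ →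
    ∃ a ∈ L, ∃ v ∈ W₂, l a v - v ∉ W₁

/-- The affine maps `f` of `H / W` which commute with `L` are equal to the identity. (The map of `H / W` is induced by an
affine map `f` which maps `H` into itself, and the linear part of which maps `W` into itself.) -/
def OnlyIdentity (L : Subgroup Γ) (H : Set E) (W : Submodule ℝ E) : Prop :=
  ∀ f : E →ᵃ[ℝ] E, (∀ q ∈ H, f q ∈ H) → (∀ w ∈ W, f.linear w ∈ W) →
    (∀ a ∈ L, ∀ q ∈ H, f (φ a q) - φ a (f q) ∈ W) → ∀ q ∈ H, f q - q ∈ W

/-- The laws for centralizers, for the action of `K` on the affine subspace `H` with direction `V`. -/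
structure CentralizerLaws (K : Subgroup Γ) (H : Set E) (V : Submodule ℝ E) : Prop where
  /-- normal subgroups -/
  normal : ∀ N ≤ K, Normalises φ K N H → ∀ W ≤ V, LinInvariant l K W → NoTrivialFactor l K N W V →
    OnlyIdentity φ N H W
  /-- commensurated subgroups -/
  commensurated : ∀ N ≤ K, K ≤ Subgroup.Commensurable.commensurator N → ∀ W ≤ V, LinInvariant l K W →
    (∀ L ≤ N, L.relIndex N ≠ 0 → NoTrivialFactor l K L W V) → ∀ L ≤ N, L.relIndex N ≠ 0 → OnlyIdentity φ L H W
  /-- two commuting normal subgroups acting on a quotient with an irreducible linear part -/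
  commuting : ∀ W < V, LinInvariant l K W →
    (∀ Y : Submodule ℝ E, W ≤ Y → Y ≤ V → LinInvariant l K Y → Y = W ∨ Y = V) →
    ∀ A ≤ K, ∀ B ≤ K, Normalises φ K A H → Normalises φ K B H →
    (∀ a ∈ A, ∀ b ∈ B, ∀ q ∈ H, φ a (φ b q) - φ b (φ a q) ∈ W) →
    (∀ a ∈ A, ∀ q ∈ H, φ a q - q ∈ W) ∨ (∀ b ∈ B, ∀ q ∈ H, φ b q - q ∈ W) ∨
      ((∀ a ∈ A, ∀ v ∈ V, l a v - v ∈ W) ∧ ∀ b ∈ B, ∀ v ∈ V, l b v - v ∈ W)
  /-- two commuting commensurated subgroups acting on a quotient with an irreducible linear part -/
  commuting_commensurated : ∀ W < V, LinInvariant l K W →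
    (∀ Y : Submodule ℝ E, W ≤ Y → Y ≤ V → LinInvariant l K Y → Y = W ∨ Y = V) →
    ∀ A ≤ K, ∀ B ≤ K, K ≤ Subgroup.Commensurable.commensurator A → K ≤ Subgroup.Commensurable.commensurator B →
    (∀ a ∈ A, ∀ b ∈ B, ∀ q ∈ H, φ a (φ b q) - φ b (φ a q) ∈ W) →
    (∀ a ∈ A, ∀ q ∈ H, φ a q - q ∈ W) ∨ (∀ b ∈ B, ∀ q ∈ H, φ b q - q ∈ W) ∨
      ((∃ L ≤ A, L.relIndex A ≠ 0 ∧ ∀ a ∈ L, ∀ v ∈ V, l a v - v ∈ W) ∧
        ∃ L ≤ B, L.relIndex B ≠ 0 ∧ ∀ b ∈ L, ∀ v ∈ V, l b v - v ∈ W)

/-- The affine manifold `K \ dev⁻¹(H)`, where `H` is an affine subspace with the direction `V`,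
has a continuous vector field without zeros. For `H = E` this is a vector field without zeros on
the covering `K \ X` of `Γ \ X`. -/
def HasField (dev : X → E) (K : Subgroup Γ) (H : Set E) (V : Submodule ℝ E) : Prop :=
  ∃ Z : X → E, ContinuousOn Z {x | dev x ∈ H} ∧ (∀ x, dev x ∈ H → Z x ∈ V ∧ Z x ≠ 0) ∧
    ∀ γ ∈ K, ∀ x : X, dev x ∈ H → Z (γ • x) = l γ (Z x)

/-- The covering `K \ X` is radiant: `K` fixes a point `p` of `E`, and `p` is not in the developing image. -/
def Radiant (dev : X → E) (K : Subgroup Γ) : Prop := ∃ p : E, (∀ γ ∈ K, φ γ p = p) ∧ ∀ x, dev x ≠ p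

end

/-- **Theorem.** Let `Γ \ X` be a closed affine manifold of positive dimension, with `X` connected.

(1) Suppose that no finite covering of it has a vector field without zeros (this is the case if its Euler
characteristic is not zero). Then there are a subgroup `G` of finite index and a `G`-invariant affine subspace `H` of
positive dimension, which meets the developing image, such that the laws for centralizers hold for all subgroups
`K ≤ G` of finite index.

(2) Let `K` be a subgroup of finite index with an irreducible linear holonomy. Let `N ≤ K` be normalised by `K` and not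
consist of translations, and let `N` commute with an affine map `f` which is not the identity. Then `K \ X` is radiant and
has a vector field without zeros.

(3) The same if `K` commensurates `N`, no subgroup of finite index of `N` consists of translations, and `f` commutes
with some subgroup `L` of finite index of `N`. -/
theorem result [T2Space X] [ConnectedSpace X] [FiniteDimensional ℝ E] [Nontrivial E]
    {dev : X → E} {hol : Γ →* (E ≃ᵃ[ℝ] E)} (D : ClosedAffine X Γ E dev hol) :
    ((∀ K : Subgroup Γ, K.FiniteIndex → ¬ HasField (lin hol) dev K univ ⊤) →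
      ∃ (G : Subgroup Γ) (H : AffineSubspace ℝ E), G.FiniteIndex ∧ Invariant (act hol) G H ∧
        H.direction ≠ ⊥ ∧ (∃ x, dev x ∈ H) ∧
        ∀ K ≤ G, K.FiniteIndex → CentralizerLaws (act hol) (lin hol) K H H.direction) ∧
    ∀ K : Subgroup Γ, K.FiniteIndex → (∀ W : Submodule ℝ E, LinInvariant (lin hol) K W → W = ⊥ ∨ W = ⊤) →
      (∀ N ≤ K, Normalises (act hol) K N univ → (∃ a ∈ N, ∃ v, lin hol a v ≠ v) →
        ∀ f : E →ᵃ[ℝ] E, (∀ a ∈ N, ∀ q, f (act hol a q) = act hol a (f q)) → (∃ q, f q ≠ q) →
        Radiant (act hol) dev K ∧ HasField (lin hol) dev K univ ⊤) ∧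
      ∀ N ≤ K, K ≤ Subgroup.Commensurable.commensurator N →
        (∀ L ≤ N, L.relIndex N ≠ 0 → ∃ a ∈ L, ∃ v, lin hol a v ≠ v) →
        ∀ L ≤ N, L.relIndex N ≠ 0 →
        ∀ f : E →ᵃ[ℝ] E, (∀ a ∈ L, ∀ q, f (act hol a q) = act hol a (f q)) → (∃ q, f q ≠ q) →
        Radiant (act hol) dev K ∧ HasField (lin hol) dev K univ ⊤ := by
  have D' : Pool.Agent.W689.Ch.AffMfd X Γ E dev hol := ⟨D.loc, D.cont, D.equi, D.pd, D.cc⟩
  refine ⟨fun hno => ?_, fun K hK hirr => ?_⟩
  · obtain ⟨G, H, x₀, m⟩ := Pool.Agent.Y150.Ch.exists_min D' (fun K hK ⟨Z, h1, h2, h3⟩ =>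
      hno K hK ⟨Z, h1, fun x _ => ⟨trivial, (h2 x trivial).2⟩, fun γ hγ x _ => h3 ⟨γ, hγ⟩ x trivial⟩)
    refine ⟨G, H, m.fin, m.inv, m.dir, ⟨x₀, m.mem⟩, ?_⟩
    intro K hK hKf
    have hKH : ∀ γ ∈ K, ∀ q ∈ H, hol γ q ∈ H := fun γ hγ => m.inv γ (hK hγ)
    have haff : ∀ S : Set E, S.Nonempty → S ⊆ H →
        (∀ x ∈ S, ∀ y ∈ S, ∀ s t : ℝ, s + t = 1 → s • x + t • y ∈ S) →
        (∀ γ ∈ K, ∀ q ∈ S, hol γ q ∈ S) → S = H := fun S ⟨p, hp⟩ h1 h2 h3 =>
      m.star K hK hKf S p hp h1 (fun q hq s t _ _ hst => h2 p hp q hq s t hst) h3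
    have hnormal : ∀ N ≤ K, Normalises (act hol) K N H → ∀ W ≤ H.direction, LinInvariant (lin hol) K W →
        NoTrivialFactor (lin hol) K N W H.direction → OnlyIdentity (act hol) N H W := by
      intro N hN hnor W hW hWK hnt f h1 h2 h3
      exact Pool.Agent.NH69.CH.only_id (Pool.Agent.NH69.CH.afam_normal hN hnor) m.mem hKH haff hW hWK
        (fun W₁ W₂ k1 k2 k3 k4 k5 L hL => by
          rw [Set.mem_singleton_iff] at hL
          subst hL
          exact hnt W₁ W₂ k1 k2 k3 k4 k5) N rfl f ⟨h1, h2, h3⟩
    have hcomm' : ∀ N ≤ K, K ≤ Subgroup.Commensurable.commensurator N → ∀ W ≤ H.direction, LinInvariant (lin hol) K W →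
        (∀ L ≤ N, L.relIndex N ≠ 0 → NoTrivialFactor (lin hol) K L W H.direction) →
        ∀ L ≤ N, L.relIndex N ≠ 0 → OnlyIdentity (act hol) L H W := by
      intro N hN hcom W hW hWK hnt L hLN hL f h1 h2 h3
      exact Pool.Agent.NH69.CH.only_id (Pool.Agent.NH69.CH.afam_comm hN hcom) m.mem hKH haff hW hWK
        (fun W₁ W₂ k1 k2 k3 k4 k5 L hL => hnt L hL.1 hL.2 W₁ W₂ k1 k2 k3 k4 k5) L ⟨hLN, hL⟩ f ⟨h1, h2, h3⟩
    have hmaxf : ∀ W < H.direction, (∀ Y : Submodule ℝ E, W ≤ Y → Y ≤ H.direction → LinInvariant (lin hol) K Y →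
        Y = W ∨ Y = H.direction) → ∀ L : Subgroup Γ, (∃ a ∈ L, ∃ v ∈ H.direction, lin hol a v - v ∉ W) →
        NoTrivialFactor (lin hol) K L W H.direction := by
      rintro W _ hmax L ⟨a, ha, v, hv, hav⟩ W₁ W₂ k1 k2 k3 k4 k5
      have h1 : W₂ = H.direction := by
        rcases hmax W₂ (k1.trans k2.le) k3 k5 with h | h
        · exact absurd (lt_of_le_of_lt k1 k2) (by rw [h]; exact lt_irrefl _)
        · exact h
      have h2 : W₁ = W := by
        rcases hmax W₁ k1 (k2.le.trans k3) k4 with h | h
        · exact h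
        · exact absurd k2 (by rw [h, h1]; exact lt_irrefl _)
      rw [h1, h2]
      exact ⟨a, ha, v, hv, hav⟩
    have hone : ∀ W < H.direction, LinInvariant (lin hol) K W → ∀ A B : Subgroup Γ, B ≤ K →
        (∀ a ∈ A, ∀ b ∈ B, ∀ q ∈ H, act hol a (act hol b q) - act hol b (act hol a q) ∈ W) →
        OnlyIdentity (act hol) A H W → ∀ b ∈ B, ∀ q ∈ H, act hol b q - q ∈ W := by
      intro W _ hWK A B hB hcomm h b hb q hq
      refine h ((hol b : E ≃ᵃ[ℝ] E) : E →ᵃ[ℝ] E) (hKH b (hB hb)) (hWK b (hB hb)) (fun a ha q hq => ?_) q hq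
      have h1 := W.neg_mem (hcomm a ha b hb q hq)
      rw [neg_sub] at h1
      exact h1
    have hsymm : ∀ W : Submodule ℝ E, ∀ A B : Subgroup Γ,
        (∀ a ∈ A, ∀ b ∈ B, ∀ q ∈ H, act hol a (act hol b q) - act hol b (act hol a q) ∈ W) →
        ∀ b ∈ B, ∀ a ∈ A, ∀ q ∈ H, act hol b (act hol a q) - act hol a (act hol b q) ∈ W := by
      intro W A B hcomm b hb a ha q hq
      have h1 := W.neg_mem (hcomm a ha b hb q hq)
      rw [neg_sub] at h1
      exact h1
    refine ⟨hnormal, hcomm', ?_, ?_⟩
    · intro W hWV hWK hmax A hA B hB hAn hBn hcomm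
      by_cases hAt : ∃ a ∈ A, ∃ v ∈ H.direction, lin hol a v - v ∉ W
      · exact Or.inr (Or.inl (hone W hWV hWK A B hB hcomm
          (hnormal A hA hAn W hWV.le hWK (hmaxf W hWV hmax A hAt))))
      · by_cases hBt : ∃ b ∈ B, ∃ v ∈ H.direction, lin hol b v - v ∉ W
        · exact Or.inl (hone W hWV hWK B A hA (hsymm W A B hcomm)
            (hnormal B hB hBn W hWV.le hWK (hmaxf W hWV hmax B hBt)))
        · push Not at hAt hBt
          exact Or.inr (Or.inr ⟨hAt, hBt⟩)
    · intro W hWV hWK hmax A hA B hB hAc hBc hcomm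
      have hself : ∀ N : Subgroup Γ, N.relIndex N ≠ 0 := fun N => by
        rw [Subgroup.relIndex_self]; exact one_ne_zero
      by_cases hAt : ∀ L ≤ A, L.relIndex A ≠ 0 → ∃ a ∈ L, ∃ v ∈ H.direction, lin hol a v - v ∉ W
      · exact Or.inr (Or.inl (hone W hWV hWK A B hB hcomm
          (hcomm' A hA hAc W hWV.le hWK (fun L h1 h2 => hmaxf W hWV hmax L (hAt L h1 h2)) A le_rfl (hself A))))
      · by_cases hBt : ∀ L ≤ B, L.relIndex B ≠ 0 → ∃ b ∈ L, ∃ v ∈ H.direction, lin hol b v - v ∉ W
        · exact Or.inl (hone W hWV hWK B A hA (hsymm W A B hcomm)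
            (hcomm' B hB hBc W hWV.le hWK (fun L h1 h2 => hmaxf W hWV hmax L (hBt L h1 h2)) B le_rfl (hself B)))
        · push Not at hAt hBt
          exact Or.inr (Or.inr ⟨hAt, hBt⟩)
  · -- the irreducible case
    have hfield : Radiant (act hol) dev K → Radiant (act hol) dev K ∧ HasField (lin hol) dev K univ ⊤ := by
      rintro ⟨p, h1, h2⟩
      refine ⟨⟨p, h1, h2⟩, fun x => dev x - p, ?_, fun x _ => ⟨trivial, sub_ne_zero.2 (h2 x)⟩, fun γ hγ x _ => ?_⟩
      · exact (D.loc.continuous.sub continuous_const).continuousOn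
      · show dev (γ • x) - p = lin hol γ (dev x - p)
        have h3 : lin hol γ (dev x - p) = hol γ (dev x) - hol γ p :=
          (Pool.Agent.W689.Mk.hol_sub (hol := hol) γ (dev x) p).symm
        rw [h3, D.equi, show hol γ p = p from h1 γ hγ]
    have hmem : (0 : E) ∈ (⊤ : AffineSubspace ℝ E) := AffineSubspace.mem_top ℝ E _
    have hKT : ∀ γ ∈ K, ∀ q ∈ (⊤ : AffineSubspace ℝ E), hol γ q ∈ (⊤ : AffineSubspace ℝ E) := fun γ _ q _ =>
      AffineSubspace.mem_top ℝ E _
    have hbot : Pool.Agent.NH69.CH.Inv (Pool.Agent.Y150.Ch.T hol) K ⊥ := by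
      intro γ _ v hv
      rw [(Submodule.mem_bot ℝ).1 hv, map_zero]
      exact Submodule.zero_mem _
    have key : ∀ F : Set (Subgroup Γ), Pool.Agent.NH69.CH.AFam hol K ⊤ F →
        (∀ L ∈ F, ∃ a ∈ L, ∃ v, lin hol a v ≠ v) → ∀ L ∈ F, ∀ f : E →ᵃ[ℝ] E,
        (∀ a ∈ L, ∀ q, f (act hol a q) = act hol a (f q)) → (∃ q, f q ≠ q) → Radiant (act hol) dev K := by
      rintro F hF hnt L hL f hf ⟨q, hq⟩
      by_contra hrad
      have haff := Pool.Agent.NH69.CH.haff_irr (K := K) D' hK hirr (by
        rintro ⟨p, h1, h2⟩
        exact hrad ⟨p, h2, h1⟩)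
      have h1 := Pool.Agent.NH69.CH.only_id hF hmem hKT haff bot_le hbot
        (fun W₁ W₂ k1 k2 k3 k4 k5 L hL => by
          have h2 : W₂ = ⊤ := by
            rcases hirr W₂ k5 with h | h
            · rw [h] at k2
              exact absurd k2 not_lt_bot
            · exact h
          have h3 : W₁ = ⊥ := by
            rcases hirr W₁ k4 with h | h
            · exact h
            · rw [h] at k2
              exact absurd k2 not_top_lt
          obtain ⟨a, ha, v, hv⟩ := hnt L hL
          refine ⟨a, ha, v, by rw [h2]; exact Submodule.mem_top, ?_⟩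
          rw [h3, Submodule.mem_bot]
          exact sub_ne_zero.2 hv) L hL f
        ⟨fun q _ => AffineSubspace.mem_top ℝ E _, fun w hw => by
          rw [(Submodule.mem_bot ℝ).1 hw, map_zero]
          exact Submodule.zero_mem _, fun a ha q _ => by
          rw [show f (hol a q) = hol a (f q) from hf a ha q, sub_self]
          exact Submodule.zero_mem _⟩ q (AffineSubspace.mem_top ℝ E _)
      rw [Submodule.mem_bot] at h1
      exact hq (sub_eq_zero.1 h1)
    refine ⟨fun N hN hnor hnt f hf hne => hfield ?_, fun N hN hcom hnt L hLN hL f hf hne => hfield ?_⟩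
    · exact key {N} (Pool.Agent.NH69.CH.afam_normal hN fun γ hγ a ha => by
        obtain ⟨b, hb, h⟩ := hnor γ hγ a ha
        exact ⟨b, hb, fun q _ => h q trivial⟩) (fun L hL => by
          rw [Set.mem_singleton_iff] at hL
          subst hL
          exact hnt) N rfl f hf hne
    · exact key _ (Pool.Agent.NH69.CH.afam_comm hN hcom) (fun L hL => hnt L hL.1 hL.2) L ⟨hLN, hL⟩ f hf hne

end Pool.Agent.Results.MP_1fa9a4_gt.AffineCentralizers
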