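import Pool.Agent.NH69.BC.Main
import Pool.Agent.NH69.BC.NIL
import Pool.Agent.NH69.BC.UB
import Pool.Agent.NH69.BC.REP
import Pool.Agent.NH69.BC.TR
import Pool.Agent.NH69.BC.RES

/-!
# Elements of the holonomy of a closed affine manifold with bounded conjugacy classes

Chern's conjecture says that closed affine manifolds have Euler characteristic zero. A closed
affine manifold with non-zero Euler characteristic has no finite covering with a vector field
without zeros (Poincare and Hopf).

**Theorem.** Let `Γ \ X` be a closed affine manifold such that no finite covering has a vector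
field without zeros. After a finite covering there is an invariant affine subspace `H` of positive
dimension, with direction `V`, which meets the developing image, such that the following holds for all
subgroups `K` of finite index and all `K`-invariant subspaces `W` of `V`.

* The elements `g` of `K` whose conjugacy class under `K`, as a set of affine maps of `H / W`, is bounded form a group
  (in particular the class of the inverse is bounded, so that these are the elements with relatively compact classes).
* They act trivially on all irreducible factors of the linear representation of `K` on `V / W`. So they form a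
  unipotent normal subgroup.
* If `V / W` is irreducible, then they act trivially on `H / W`, or the image of `K` in `GL(V / W)` is bounded.

**Corollary.** Let `K` be a subgroup of finite index of `Γ` with an irreducible linear holonomy. If some `g ∈ K` which is
not the identity on the model space has a bounded conjugacy class under `K`, then `K` fixes a point outside the developing
image, and `K \ X` has a vector field without zeros, or the linear holonomy of `K` is bounded (then `K \ X` is a closed flat
Riemannian manifold).

Proof. An affine map of `H / W` which commutes with `K` is the identity, since its fixed points would give a proper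
`K`-invariant affine subspace (`NH69.CH.only_id`, there are no factors of dimension one). `K` acts on the affine vector
fields on `H / W`, and those with a bounded orbit and a linear part with a given trace `c` form a `K`-invariant affine
subspace, on which `K` has a fixed point. It commutes with `K`, so it is zero, and `c = 0`. Hence all elements with a bounded
class have the trace `dim (V / W)`. The products of two such elements have a bounded class again, so the span of the
`g - 1` consists of operators all powers of which have the trace zero: it consists of nilpotent operators. In particular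
`g⁻¹` is a polynomial in `g - 1` with bounded terms. If the group of these elements did not act trivially on an irreducible
factor, the span of the `g - 1` would contain the identity of this factor (`NH69.CH.irr`).

The parts of the proof are due to helper26 (`NIL`), helper79 (`UB`), helper77 (`REP`), helper59 (`TR`), helper76 (`RES`) and
helper69 (plan and assembly). The subspace `H` is that of the starting modules `Pool.Agent.Y150.Ch`.
-/

set_option autoImplicit false

open Set Filter Topology

namespace Pool.Agent.Results.MP_1fa9a4_gt.BoundedConjugacyClasses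

/-- A closed affine manifold `Γ \ X` modelled on the vector space `E`: the group `Γ` acts on the
Hausdorff space `X` properly discontinuously and with compact quotient, and the developing map
`dev` is a local homeomorphism to `E` that is equivariant with respect to the affine holonomy
`hol`. -/
structure ClosedAffine (X Γ E : Type) [TopologicalSpace X] [Group Γ] [MulAction Γ X]
    [NormedAddCommGroup E] [NormedSpace ℝ E] (dev : X → E) (hol : Γ →* (E ≃ᵃ[ℝ] E)) : Prop where
  /-- the developing map is a local homeomorphism -/
  loc : IsLocalHomeomorph dev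
  /-- the group acts by homeomorphisms -/
  cont : ∀ γ : Γ, Continuous fun x : X => γ • x
  /-- the developing map is equivariant -/
  equi : ∀ (γ : Γ) (x : X), dev (γ • x) = hol γ (dev x)
  /-- the action is properly discontinuous -/
  pd : ∀ K : Set X, IsCompact K → {γ : Γ | ∃ x ∈ K, γ • x ∈ K}.Finite
  /-- the quotient is compact -/
  cc : ∃ K : Set X, IsCompact K ∧ ∀ x : X, ∃ γ : Γ, ∃ k ∈ K, γ • k = x

variable {X Γ E : Type} [TopologicalSpace X] [Group Γ] [MulAction Γ X] [NormedAddCommGroup E]
  [NormedSpace ℝ E]

/-- The affine action of the group on the model space. -/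
def act (hol : Γ →* (E ≃ᵃ[ℝ] E)) (γ : Γ) (q : E) : E := hol γ q

/-- The linear holonomy. -/
def lin (hol : Γ →* (E ≃ᵃ[ℝ] E)) (γ : Γ) : E →ₗ[ℝ] E := (hol γ).linear

section

variable (φ : Γ → E → E) (l : Γ → E →ₗ[ℝ] E)

/-- The set `S` is invariant under `K`. -/
def Invariant (K : Subgroup Γ) (S : Set E) : Prop := ∀ γ ∈ K, ∀ q ∈ S, φ γ q ∈ S

/-- The linear subspace `W` is invariant under `K`. -/
def LinInvariant (K : Subgroup Γ) (W : Submodule ℝ E) : Prop := ∀ γ ∈ K, ∀ v ∈ W, l γ v ∈ W

/-- The conjugacy class of `g` under `K` is bounded on `H / W`: for each point `q` of `H` the images of `q` under the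
conjugates `γ g γ⁻¹`, `γ ∈ K`, are bounded modulo `W`. -/
def BoundedClass (K : Subgroup Γ) (H : Set E) (W : Submodule ℝ E) (g : Γ) : Prop :=
  ∀ q ∈ H, ∃ R : ℝ, ∀ γ ∈ K, ∃ w ∈ W, ‖φ (γ * g * γ⁻¹) q + w‖ ≤ R

/-- The orbits of `K` in `V / W` are bounded (that is, the image of `K` in `GL(V / W)` is bounded). -/
def BoundedOrbits (K : Subgroup Γ) (W V : Submodule ℝ E) : Prop :=
  ∀ v ∈ V, ∃ R : ℝ, ∀ γ ∈ K, ∃ w ∈ W, ‖l γ v + w‖ ≤ R

/-- `U / W` is different from zero, and there is no `K`-invariant subspace strictly between `W` and `U`. -/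
def Irreducible (K : Subgroup Γ) (W U : Submodule ℝ E) : Prop :=
  W < U ∧ ∀ Y : Submodule ℝ E, W ≤ Y → Y ≤ U → LinInvariant l K Y → Y = W ∨ Y = U

/-- The laws for the elements with bounded conjugacy classes, for the action of `K` on the affine subspace `H` with
direction `V`. -/
structure ClassLaws (K : Subgroup Γ) (H : Set E) (V : Submodule ℝ E) : Prop where
  /-- the elements with a bounded class on `H / W` form a group -/
  group : ∀ W ≤ V, LinInvariant l K W → ∃ N : Subgroup Γ, ∀ g, g ∈ N ↔ g ∈ K ∧ BoundedClass φ K H W g
  /-- they act trivially on the irreducible factors `U / W₁` of `V / W` -/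
  factors : ∀ W ≤ V, LinInvariant l K W → ∀ g ∈ K, BoundedClass φ K H W g →
    ∀ W₁ U : Submodule ℝ E, W ≤ W₁ → U ≤ V → LinInvariant l K W₁ → LinInvariant l K U → Irreducible l K W₁ U →
    ∀ v ∈ U, l g v - v ∈ W₁
  /-- if `V / W` is irreducible, then they act trivially on `H / W` or `K` is bounded on `V / W` -/
  quotients : ∀ W ≤ V, LinInvariant l K W → Irreducible l K W V →
    BoundedOrbits l K W V ∨ ∀ g ∈ K, BoundedClass φ K H W g → ∀ q ∈ H, φ g q - q ∈ W

/-- The affine manifold `K \ dev⁻¹(H)`, where `H` is an affine subspace with the direction `V`,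
has a continuous vector field without zeros. For `H = E` this is a vector field without zeros on
the covering `K \ X` of `Γ \ X`. -/
def HasField (dev : X → E) (K : Subgroup Γ) (H : Set E) (V : Submodule ℝ E) : Prop :=
  ∃ Z : X → E, ContinuousOn Z {x | dev x ∈ H} ∧ (∀ x, dev x ∈ H → Z x ∈ V ∧ Z x ≠ 0) ∧
    ∀ γ ∈ K, ∀ x : X, dev x ∈ H → Z (γ • x) = l γ (Z x)

/-- The covering `K \ X` is radiant: `K` fixes a point `p` of `E`, and `p` is not in the developing image. -/
def Radiant (dev : X → E) (K : Subgroup Γ) : Prop := ∃ p : E, (∀ γ ∈ K, φ γ p = p) ∧ ∀ x, dev x ≠ p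

end

/-- **Theorem.** Let `Γ \ X` be a closed affine manifold of positive dimension, with `X` connected.

(1) Suppose that no finite covering of it has a vector field without zeros (this is the case if its Euler
characteristic is not zero). Then there are a subgroup `G` of finite index and a `G`-invariant affine subspace `H` of
positive dimension, which meets the developing image, such that `ClassLaws` holds for all subgroups
`K ≤ G` of finite index.

(2) Let `K` be a subgroup of finite index with an irreducible linear holonomy, and let `g ∈ K` act on `E`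
nontrivially and have a bounded conjugacy class under `K`. Then `K \ X` is radiant and has a vector field without
zeros, or the linear holonomy of `K` is bounded. -/
theorem result [T2Space X] [ConnectedSpace X] [FiniteDimensional ℝ E] [Nontrivial E]
    {dev : X → E} {hol : Γ →* (E ≃ᵃ[ℝ] E)} (D : ClosedAffine X Γ E dev hol) :
    ((∀ K : Subgroup Γ, K.FiniteIndex → ¬ HasField (lin hol) dev K univ ⊤) →
      ∃ (G : Subgroup Γ) (H : AffineSubspace ℝ E), G.FiniteIndex ∧ Invariant (act hol) G H ∧
        H.direction ≠ ⊥ ∧ (∃ x, dev x ∈ H) ∧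
        ∀ K ≤ G, K.FiniteIndex → ClassLaws (act hol) (lin hol) K H H.direction) ∧
    ∀ K : Subgroup Γ, K.FiniteIndex → Irreducible (lin hol) K ⊥ ⊤ →
      ∀ g ∈ K, BoundedClass (act hol) K univ ⊥ g → (∃ q, act hol g q ≠ q) →
        (Radiant (act hol) dev K ∧ HasField (lin hol) dev K univ ⊤) ∨ BoundedOrbits (lin hol) K ⊥ ⊤ := by
  have D' : Pool.Agent.W689.Ch.AffMfd X Γ E dev hol := ⟨D.loc, D.cont, D.equi, D.pd, D.cc⟩
  have hnil := Pool.Agent.NH69.BC.t_NIL
  have hub := Pool.Agent.NH69.BC.t_UB
  have htr := Pool.Agent.NH69.BC.t_TR Pool.Agent.NH69.BC.t_FIX hub Pool.Agent.NH69.BC.t_REP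
  have hres := Pool.Agent.NH69.BC.t_RES
  refine ⟨fun hno => ?_, fun K hK hirr g hg hb hne => ?_⟩
  · obtain ⟨G, H, x₀, m⟩ := Pool.Agent.Y150.Ch.exists_min D' (fun K hK ⟨Z, h1, h2, h3⟩ =>
      hno K hK ⟨Z, h1, fun x _ => ⟨trivial, (h2 x trivial).2⟩, fun γ hγ x _ => h3 ⟨γ, hγ⟩ x trivial⟩)
    refine ⟨G, H, m.fin, m.inv, m.dir, ⟨x₀, m.mem⟩, ?_⟩
    intro K hK hKf
    have hKH : ∀ γ ∈ K, ∀ q ∈ H, hol γ q ∈ H := fun γ hγ => m.inv γ (hK hγ)
    have haff : ∀ S : Set E, S.Nonempty → S ⊆ H →
        (∀ x ∈ S, ∀ y ∈ S, ∀ s t : ℝ, s + t = 1 → s • x + t • y ∈ S) →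
        (∀ γ ∈ K, ∀ q ∈ S, hol γ q ∈ S) → S = H := fun S ⟨p, hp⟩ h1 h2 h3 =>
      m.star K hK hKf S p hp h1 (fun q hq s t _ _ hst => h2 p hp q hq s t hst) h3
    have hnt := Pool.Agent.NH69.BC.no_triv (hol := hol) (K := K) (H := H)
      (fun W W' k1 k2 k3 k4 => Pool.Agent.Y150.Ch.no_line D' m hK hKf k1 k2 k3 k4)
    refine ⟨fun W hW hWK => ?_, fun W hW hWK g hg hb W₁ U k1 k2 k3 k4 k5 => ?_, fun W hW hWK hirr => ?_⟩
    · exact Pool.Agent.NH69.BC.group_of hnil hub htr hres m.mem hKH haff hW hWK
        (fun W₁ W₂ _ k2 k3 k4 _ => hnt W₁ W₂ k2 k3 k4)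
    · exact Pool.Agent.NH69.BC.main hnil hub htr hres m.mem hKH haff hW hWK
        (fun W₁ W₂ _ k2 k3 k4 _ => hnt W₁ W₂ k2 k3 k4) hg hb k1 k5.1 k2 k3 k4 k5.2
    · by_cases hbo : BoundedOrbits (lin hol) K W H.direction
      · exact Or.inl hbo
      · right
        intro g hg hb
        rcases Pool.Agent.NH69.BC.quot hnil hub htr hres m.mem hKH haff hirr.1 hWK
          (fun W₁ W₂ _ k2 k3 k4 _ => hnt W₁ W₂ k2 k3 k4) hg hb hirr.2 with h | h
        · exact h
        · exact absurd h hbo
  · by_cases hbo : BoundedOrbits (lin hol) K ⊥ ⊤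
    · exact Or.inr hbo
    left
    have hrad : Radiant (act hol) dev K := by
      by_contra hrad
      have hirr' : ∀ W : Submodule ℝ E, Pool.Agent.NH69.CH.Inv (Pool.Agent.Y150.Ch.T hol) K W → W = ⊥ ∨ W = ⊤ :=
        fun W hW => hirr.2 W bot_le le_top hW
      have haff := Pool.Agent.NH69.CH.haff_irr (K := K) D' hK hirr' (by
        rintro ⟨p, h1, h2⟩
        exact hrad ⟨p, h2, h1⟩)
      have hmem : (0 : E) ∈ (⊤ : AffineSubspace ℝ E) := AffineSubspace.mem_top ℝ E _
      have hKT : ∀ γ ∈ K, ∀ q ∈ (⊤ : AffineSubspace ℝ E), hol γ q ∈ (⊤ : AffineSubspace ℝ E) := fun γ _ q _ =>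
        AffineSubspace.mem_top ℝ E _
      have hbot : Pool.Agent.NH69.CH.Inv (Pool.Agent.Y150.Ch.T hol) K ⊥ := by
        intro γ _ v hv
        rw [(Submodule.mem_bot ℝ).1 hv, map_zero]
        exact Submodule.zero_mem _
      have hnt : ∀ W₁ W₂ : Submodule ℝ E, ⊥ ≤ W₁ → W₁ < W₂ → W₂ ≤ (⊤ : AffineSubspace ℝ E).direction →
          Pool.Agent.NH69.CH.Inv (Pool.Agent.Y150.Ch.T hol) K W₁ →
          Pool.Agent.NH69.CH.Inv (Pool.Agent.Y150.Ch.T hol) K W₂ →
          ∃ a ∈ K, ∃ v ∈ W₂, Pool.Agent.Y150.Ch.T hol a v - v ∉ W₁ := by
        intro W₁ W₂ _ k2 _ k4 k5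
        have h2 : W₂ = ⊤ := by
          rcases hirr' W₂ k5 with h | h
          · rw [h] at k2
            exact absurd k2 not_lt_bot
          · exact h
        have h3 : W₁ = ⊥ := by
          rcases hirr' W₁ k4 with h | h
          · exact h
          · rw [h] at k2
            exact absurd k2 not_top_lt
        by_contra hcon
        push Not at hcon
        refine hbo fun v _ => ⟨‖v‖, fun γ hγ => ⟨0, Submodule.zero_mem _, ?_⟩⟩
        have h4 := hcon γ hγ v (by rw [h2]; exact Submodule.mem_top)
        rw [h3, Submodule.mem_bot, sub_eq_zero] at h4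
        rw [add_zero]
        exact le_of_eq (congrArg norm h4)
      have hb' : Pool.Agent.NH69.BC.BW hol K ⊤ ⊥ g := fun q _ => hb q trivial
      rcases Pool.Agent.NH69.BC.quot hnil hub htr hres hmem hKT haff (by
          rw [AffineSubspace.direction_top]; exact bot_lt_top) hbot hnt hg hb' (by
          rw [AffineSubspace.direction_top]
          exact fun Y _ _ hY => hirr' Y hY) with h | h
      · obtain ⟨q, hq⟩ := hne
        have h1 := h q (AffineSubspace.mem_top ℝ E _)
        rw [Submodule.mem_bot] at h1
        exact hq (sub_eq_zero.1 h1)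
      · refine hbo fun v _ => h v ?_
        rw [AffineSubspace.direction_top]
        exact Submodule.mem_top
    obtain ⟨p, h1, h2⟩ := hrad
    refine ⟨⟨p, h1, h2⟩, fun x => dev x - p, ?_, fun x _ => ⟨trivial, sub_ne_zero.2 (h2 x)⟩, fun γ hγ x _ => ?_⟩
    · exact (D.loc.continuous.sub continuous_const).continuousOn
    · show dev (γ • x) - p = lin hol γ (dev x - p)
      have h3 : lin hol γ (dev x - p) = hol γ (dev x) - hol γ p :=
        (Pool.Agent.W689.Mk.hol_sub (hol := hol) γ (dev x) p).symm
      rw [h3, D.equi, show hol γ p = p from h1 γ hγ]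

end Pool.Agent.Results.MP_1fa9a4_gt.BoundedConjugacyClasses
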