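import Pool.Agent.NH11.CH.Cor

/-!
# Commuting normal subgroups of the holonomy of a closed affine manifold

Chern's conjecture says that closed affine manifolds have Euler characteristic zero. A closed
affine manifold with non-zero Euler characteristic has no finite covering with a vector field
without zeros (Poincare and Hopf).

**Theorem.** Let `Γ \ X` be a closed affine manifold such that no finite covering has a vector
field without zeros. After a finite covering there is an invariant affine subspace `H` of positive
dimension which meets the developing image, such that the closed affine manifold developed into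
`H` has no tangent field without zeros over any finite covering, and such that two commuting
normal subgroups `N` and `C` of a subgroup `K` of finite index of the holonomy on `H` have the
following property. Let `W_N` be the smallest `K`-invariant subspace of the direction `V` of `H`
such that `N` acts nontrivially on all `K`-invariant factors of `V / W_N`, and `W_C` the same
subspace for `C`. Then `C` acts trivially on `H / W_N`, `N` acts trivially on `H / W_C`, and
`W_N + W_C = V`, so that `H / (W_N ∩ W_C)` is the product of `H / W_N` and `H / W_C`. Suppose moreover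
that `K` acts as `N C`. Then both `N` and `C` act nontrivially on all the top factors of
`W_N ∩ W_C`. If the dimension of `H` is at most five, then `W_N` or `W_C` vanishes, so that `C` or `N`
acts trivially on `H`, or `V` is the direct sum of `W_N` and `W_C`: `H` is the product of `H / W_N` and
`H / W_C`, and `N` acts only on the first and `C` only on the second one.

**Corollaries** (`general` and `irreducible` in `Pool.Agent.NH11.CH.Cor`). Let `K` be a subgroup of finite index of `Γ`,
and let `N` and `C` be normal subgroups of `K` whose holonomies commute.

1. Suppose that, also after passing to subgroups of finite index, the linear holonomy of `N` is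
   nontrivial on every factor of the linear holonomy of `K`, and `C` acts nontrivially on every
   invariant affine subspace of positive dimension. Then a finite covering has a vector field
   without zeros, so that the Euler characteristic is zero.
2. In particular this holds if the linear holonomy of every subgroup of finite index is irreducible,
   and the linear holonomy of `N` and the affine holonomy of `C` are infinite; for instance if the
   holonomy group is irreducible in this sense and, up to finite index, the direct product of two
   groups with infinite linear holonomy.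

Proof. If `N` has no trivial factor on `V / W` then some combination `a` of the operators `n - 1`,
`n ∈ N`, is invertible on `V / W` (maximal rank on simple modules and generic combinations). The
affine vector field on `H / W` which belongs to `a` has exactly one zero, and it is invariant under
`C`. So `C` fixes a point of `H / W`, and the fixed points of `C` are an invariant affine subspace:
`C` acts trivially on `H / W`, because there is no proper invariant star-shaped subset. If `C` is
trivial on a top factor `I / J` of `I = W_N ∩ W_C`, let `T` be the set of the vectors of `W_N` which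
are `N`-invariant modulo `J`. Then `K = N C` acts trivially on `W_N / (T + I)`, so that
`W_N = T + I`, and `N` has no trivial factor on `W_N / T = I / J`, in contradiction to the definition
of `W_N`.

The result `AffineCentralizers` of helper69 for the same problem, found independently, treats the
affine maps which commute with `N`, and implies that `C` is trivial on `H / W_N`.

Authors: helper11 (plan, statements, assembly) and the authors of the files in
`Pool.Agent.NH11.CH`; the subspace `H` is that of the starting modules `Pool.Agent.Y150.Ch`.
-/

set_option autoImplicit false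

open Set Filter Topology

namespace Pool.Agent.Results.MP_1fa9a4_gt.CommutingNormalSubgroups

/-- A closed affine manifold `Γ \ X` modelled on the vector space `E`: the group `Γ` acts on the
Hausdorff space `X` properly discontinuously and with compact quotient, and the developing map
`dev` is a local homeomorphism to `E` that is equivariant with respect to the affine holonomy
`hol`. -/
structure ClosedAffine (X Γ E : Type) [TopologicalSpace X] [Group Γ] [MulAction Γ X]
    [NormedAddCommGroup E] [NormedSpace ℝ E] (dev : X → E) (hol : Γ →* (E ≃ᵃ[ℝ] E)) : Prop where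
  /-- the developing map is a local homeomorphism -/
  loc : IsLocalHomeomorph dev
  /-- the group acts by homeomorphisms -/
  cont : ∀ γ : Γ, Continuous fun x : X => γ • x
  /-- the developing map is equivariant -/
  equi : ∀ (γ : Γ) (x : X), dev (γ • x) = hol γ (dev x)
  /-- the action is properly discontinuous -/
  pd : ∀ K : Set X, IsCompact K → {γ : Γ | ∃ x ∈ K, γ • x ∈ K}.Finite
  /-- the quotient is compact -/
  cc : ∃ K : Set X, IsCompact K ∧ ∀ x : X, ∃ γ : Γ, ∃ k ∈ K, γ • k = x

variable {X Γ E : Type} [TopologicalSpace X] [Group Γ] [MulAction Γ X] [NormedAddCommGroup E]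
  [NormedSpace ℝ E]

/-- The affine action of the group on the model space. -/
def act (hol : Γ →* (E ≃ᵃ[ℝ] E)) (γ : Γ) (q : E) : E := hol γ q

/-- The linear holonomy. -/
def lin (hol : Γ →* (E ≃ᵃ[ℝ] E)) (γ : Γ) : E →ₗ[ℝ] E := (hol γ).linear

/-- `N` is a normal subgroup of `K`. -/
def NormalIn (N K : Subgroup Γ) : Prop := N ≤ K ∧ ∀ γ ∈ K, ∀ n ∈ N, γ * n * γ⁻¹ ∈ N

section act

variable (φ : Γ → E → E)

/-- The elements of `N` commute with the elements of `C` as transformations of `H`. -/
def CommuteOn (N C : Subgroup Γ) (H : Set E) : Prop :=
  ∀ n ∈ N, ∀ c ∈ C, ∀ q ∈ H, φ n (φ c q) = φ c (φ n q)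

/-- The set `S` is invariant under `K`. -/
def Invariant (K : Subgroup Γ) (S : Set E) : Prop := ∀ γ ∈ K, ∀ q ∈ S, φ γ q ∈ S

/-- No proper star-shaped subset of `H` is invariant under `K`. -/
def NoStar (K : Subgroup Γ) (H : Set E) : Prop :=
  ∀ (S : Set E) (p : E), p ∈ S → S ⊆ H → StarConvex ℝ p S → Invariant φ K S → S = H

/-- `N` acts trivially on `H / W`: the elements of `N` move the points of `H` by vectors in `W`. -/
def TrivialMod (N : Subgroup Γ) (H : Set E) (W : Submodule ℝ E) : Prop :=
  ∀ n ∈ N, ∀ q ∈ H, φ n q - q ∈ W

/-- Every element of `K` acts on `H` as the product of an element of `N` and an element of `C`. -/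
def ProductOn (K N C : Subgroup Γ) (H : Set E) : Prop :=
  ∀ γ ∈ K, ∃ n ∈ N, ∃ c ∈ C, ∀ q ∈ H, φ γ q = φ n (φ c q)

end act

section lin

variable (l : Γ → E →ₗ[ℝ] E)

/-- The linear subspace `W` is invariant under `K`. -/
def LinInvariant (K : Subgroup Γ) (W : Submodule ℝ E) : Prop := ∀ γ ∈ K, ∀ v ∈ W, l γ v ∈ W

/-- The linear holonomy of `N` is trivial on the factor `W'' / W'`. -/
def TrivialFactor (N : Subgroup Γ) (W' W'' : Submodule ℝ E) : Prop :=
  ∀ n ∈ N, ∀ v ∈ W'', l n v - v ∈ W'

/-- `W` is the smallest `K`-invariant subspace of `V` such that the linear holonomy of `N` is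
nontrivial on all `K`-invariant factors of `V / W`: there is no trivial factor above `W`, but there
is one above every smaller invariant subspace. -/
structure Residue (K N : Subgroup Γ) (V W : Submodule ℝ E) : Prop where
  le : W ≤ V
  inv : LinInvariant l K W
  above : ∀ W' W'' : Submodule ℝ E, LinInvariant l K W' → LinInvariant l K W'' → W ≤ W' →
    W' < W'' → W'' ≤ V → ¬ TrivialFactor l N W' W''
  below : ∀ U : Submodule ℝ E, LinInvariant l K U → U < W → ∃ W' W'' : Submodule ℝ E,
    LinInvariant l K W' ∧ LinInvariant l K W'' ∧ U ≤ W' ∧ W' < W'' ∧ W'' ≤ V ∧
      TrivialFactor l N W' W''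

/-- The affine manifold `K \ dev⁻¹(H)`, where `H` is an affine subspace with the direction `V`,
has a continuous vector field without zeros. For `H = E` this is a vector field without zeros on
the covering `K \ X` of `Γ \ X`. -/
def HasField (dev : X → E) (K : Subgroup Γ) (H : Set E) (V : Submodule ℝ E) : Prop :=
  ∃ Z : X → E, ContinuousOn Z {x | dev x ∈ H} ∧ (∀ x, dev x ∈ H → Z x ∈ V ∧ Z x ≠ 0) ∧
    ∀ γ ∈ K, ∀ x : X, dev x ∈ H → Z (γ • x) = l γ (Z x)

/-- The linear holonomy of `K` has no one-dimensional factors on `V`. -/
def NoLine (K : Subgroup Γ) (V : Submodule ℝ E) : Prop :=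
  ∀ W W' : Submodule ℝ E, W ≤ W' → W' ≤ V → LinInvariant l K W → LinInvariant l K W' →
    Module.finrank ℝ W' ≠ Module.finrank ℝ W + 1

/-- The `K`-invariant subspace `J` is maximal among the `K`-invariant proper subspaces of `I`. -/
def MaximalIn (K : Subgroup Γ) (J I : Submodule ℝ E) : Prop :=
  LinInvariant l K J ∧ J < I ∧
    ∀ J' : Submodule ℝ E, LinInvariant l K J' → J ≤ J' → J' ≤ I → J' = J ∨ J' = I

end lin

/-- The property of two commuting normal subgroups `N` and `C` of `K` on the affine subspace `H` with
direction `V`: the affine space `H / (W_N ∩ W_C)` is the product of `H / W_N`, on which `C` is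
trivial, and `H / W_C`, on which `N` is trivial; and if `K` acts as `N C` then both `N` and `C` are
nontrivial on all the top factors of `W_N ∩ W_C`, and in dimensions up to five one of `W_N`, `W_C`
and `W_N ∩ W_C` vanishes. -/
def Splitting (φ : Γ → E → E) (l : Γ → E →ₗ[ℝ] E) (K : Subgroup Γ) (H : Set E)
    (V : Submodule ℝ E) : Prop :=
  ∀ N C : Subgroup Γ, NormalIn N K → NormalIn C K → CommuteOn φ N C H →
    ∃ WN WC : Submodule ℝ E, Residue l K N V WN ∧ Residue l K C V WC ∧
      WN ⊔ WC = V ∧ TrivialMod φ C H WN ∧ TrivialMod φ N H WC ∧
      (ProductOn φ K N C H →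
        (∀ J : Submodule ℝ E, MaximalIn l K J (WN ⊓ WC) →
          ¬ TrivialFactor l N J (WN ⊓ WC) ∧ ¬ TrivialFactor l C J (WN ⊓ WC)) ∧
        (Module.finrank ℝ V ≤ 5 → WN = ⊥ ∨ WC = ⊥ ∨ WN ⊓ WC = ⊥))

/-- **Theorem.** Let `Γ \ X` be a closed affine manifold of positive dimension, with `X` connected,
such that no finite covering of it has a vector field without zeros (this is the case if its Euler
characteristic is not zero). Then there are a subgroup `G` of finite index and a `G`-invariant
affine subspace `H` of positive dimension, which meets the developing image, such that for all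
subgroups `K` of finite index in `G` the covering `K \ dev⁻¹(H)` has no tangent field without
zeros, there is no proper `K`-invariant star-shaped subset of `H`, there are no one-dimensional
factors, and all pairs of commuting normal subgroups of `K` have the splitting property. -/
theorem result [T2Space X] [ConnectedSpace X] [FiniteDimensional ℝ E] [Nontrivial E]
    {dev : X → E} {hol : Γ →* (E ≃ᵃ[ℝ] E)} (D : ClosedAffine X Γ E dev hol)
    (hno : ∀ K : Subgroup Γ, K.FiniteIndex → ¬ HasField (lin hol) dev K univ ⊤) :
    ∃ (G : Subgroup Γ) (H : AffineSubspace ℝ E), G.FiniteIndex ∧ Invariant (act hol) G H ∧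
      H.direction ≠ ⊥ ∧ (∃ x, dev x ∈ H) ∧ ∀ K ≤ G, K.FiniteIndex →
        ¬ HasField (lin hol) dev K H H.direction ∧ NoStar (act hol) K H ∧
          NoLine (lin hol) K H.direction ∧
            Splitting (act hol) (lin hol) K H H.direction := by
  obtain ⟨G, H, h1, h2, h3, h4, h5⟩ := Pool.Agent.NH11.CH.Cor.core
    ⟨D.loc, D.cont, D.equi, D.pd, D.cc⟩ hno
  refine ⟨G, H, h1, h2, h3, h4, fun K hK hKf => ?_⟩
  obtain ⟨a, b, c, d⟩ := h5 K hK hKf
  refine ⟨a, b, c, fun N C hN hC hcom => ?_⟩
  obtain ⟨WN, WC, r1, r2, e1, e2, e3, e4⟩ := d N C hN hC hcom
  exact ⟨WN, WC, ⟨r1.le, r1.inv, r1.above, r1.below⟩, ⟨r2.le, r2.inv, r2.above, r2.below⟩, e1, e2,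
    e3, e4⟩

end Pool.Agent.Results.MP_1fa9a4_gt.CommutingNormalSubgroups
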