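import Pool.Agent.NH11.CH.Nil

/-!
# Nilpotent normal subgroups of the holonomy of a closed affine manifold

Chern's conjecture says that closed affine manifolds have Euler characteristic zero. A closed
affine manifold with non-zero Euler characteristic has no finite covering with a vector field
without zeros (Poincare and Hopf).

**Theorem.** Let `Γ \ X` be a closed affine manifold such that no finite covering has a vector
field without zeros. After a finite covering there is an invariant affine subspace `H` of positive
dimension which meets the developing image, such that the closed affine manifold developed into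
`H` has no tangent field without zeros over any finite covering, and such that nilpotent normal
subgroups of subgroups `K` of finite index of the holonomy on `H` are unipotent: their linear
holonomy is trivial on all the `K`-irreducible factors.

For abelian normal subgroups this is a part of the starting file `CommensuratedHolonomy`.

Proof. Let `N` be a nilpotent normal subgroup of `K`. Every quotient `V / W` of the direction `V` of
`H` has a factor on which `N` is trivial: otherwise the affine maps of `H / W` which commute with `N`
are trivial (helper69), so that the last nontrivial term of the lower central series of `N` on `H / W`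
would be trivial. Now suppose that `N` is nontrivial on some irreducible factor, and let `U` be a
maximal invariant subspace with such a factor `S / U` above it. By what was said `S` is not the whole
space, and if `M / S` is the next irreducible factor then `N` is trivial on `M / S`. As `N` is
nilpotent, `M / U` is the direct sum of `S / U` and of the vectors fixed by `N`: the last term of
the lower central series which is nontrivial on `M / U` is nontrivial on `S / U`, and so a
combination of its operators `z - 1` is invertible on `S / U`, and it commutes with `N`. This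
contradicts the choice of `U`.

Authors: helper11 (plan, statements, assembly), helper69 (centralizers, `Pool.Agent.NH69.CH`) and the
authors of the files in `Pool.Agent.NH11.CH`; the subspace `H` is that of the starting modules
`Pool.Agent.Y150.Ch`.
-/

set_option autoImplicit false

open Set Filter Topology

namespace Pool.Agent.Results.MP_1fa9a4_gt.NilpotentNormalSubgroups

/-- A closed affine manifold `Γ \ X` modelled on the vector space `E`: the group `Γ` acts on the
Hausdorff space `X` properly discontinuously and with compact quotient, and the developing map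
`dev` is a local homeomorphism to `E` that is equivariant with respect to the affine holonomy
`hol`. -/
structure ClosedAffine (X Γ E : Type) [TopologicalSpace X] [Group Γ] [MulAction Γ X]
    [NormedAddCommGroup E] [NormedSpace ℝ E] (dev : X → E) (hol : Γ →* (E ≃ᵃ[ℝ] E)) : Prop where
  /-- the developing map is a local homeomorphism -/
  loc : IsLocalHomeomorph dev
  /-- the group acts by homeomorphisms -/
  cont : ∀ γ : Γ, Continuous fun x : X => γ • x
  /-- the developing map is equivariant -/
  equi : ∀ (γ : Γ) (x : X), dev (γ • x) = hol γ (dev x)
  /-- the action is properly discontinuous -/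
  pd : ∀ K : Set X, IsCompact K → {γ : Γ | ∃ x ∈ K, γ • x ∈ K}.Finite
  /-- the quotient is compact -/
  cc : ∃ K : Set X, IsCompact K ∧ ∀ x : X, ∃ γ : Γ, ∃ k ∈ K, γ • k = x

variable {X Γ E : Type} [TopologicalSpace X] [Group Γ] [MulAction Γ X] [NormedAddCommGroup E]
  [NormedSpace ℝ E]

/-- The affine action of the group on the model space. -/
def act (hol : Γ →* (E ≃ᵃ[ℝ] E)) (γ : Γ) (q : E) : E := hol γ q

/-- The linear holonomy. -/
def lin (hol : Γ →* (E ≃ᵃ[ℝ] E)) (γ : Γ) : E →ₗ[ℝ] E := (hol γ).linear

/-- `N` is a normal subgroup of `K`. -/
def NormalIn (N K : Subgroup Γ) : Prop := N ≤ K ∧ ∀ γ ∈ K, ∀ n ∈ N, γ * n * γ⁻¹ ∈ N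

/-- The lower central series of the subgroup `N`. -/
def lowerCentral (N : Subgroup Γ) : ℕ → Subgroup Γ
  | 0 => N
  | j + 1 => ⁅lowerCentral N j, N⁆

section act

variable (φ : Γ → E → E)

/-- The set `S` is invariant under `K`. -/
def Invariant (K : Subgroup Γ) (S : Set E) : Prop := ∀ γ ∈ K, ∀ q ∈ S, φ γ q ∈ S

/-- No proper star-shaped subset of `H` is invariant under `K`. -/
def NoStar (K : Subgroup Γ) (H : Set E) : Prop :=
  ∀ (S : Set E) (p : E), p ∈ S → S ⊆ H → StarConvex ℝ p S → Invariant φ K S → S = H

/-- The transformations of `H` given by the elements of `N` form a nilpotent group: some term of the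
lower central series of `N` acts trivially on `H`. -/
def NilpotentOn (N : Subgroup Γ) (H : Set E) : Prop :=
  ∃ c : ℕ, ∀ z ∈ lowerCentral N c, ∀ q ∈ H, φ z q = q

end act

section lin

variable (l : Γ → E →ₗ[ℝ] E)

/-- The linear subspace `W` is invariant under `K`. -/
def LinInvariant (K : Subgroup Γ) (W : Submodule ℝ E) : Prop := ∀ γ ∈ K, ∀ v ∈ W, l γ v ∈ W

/-- The linear holonomy of `N` is trivial on the factor `W'' / W'`. -/
def TrivialFactor (N : Subgroup Γ) (W' W'' : Submodule ℝ E) : Prop :=
  ∀ n ∈ N, ∀ v ∈ W'', l n v - v ∈ W'

/-- The affine manifold `K \ dev⁻¹(H)`, where `H` is an affine subspace with the direction `V`,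
has a continuous vector field without zeros. For `H = E` this is a vector field without zeros on
the covering `K \ X` of `Γ \ X`. -/
def HasField (dev : X → E) (K : Subgroup Γ) (H : Set E) (V : Submodule ℝ E) : Prop :=
  ∃ Z : X → E, ContinuousOn Z {x | dev x ∈ H} ∧ (∀ x, dev x ∈ H → Z x ∈ V ∧ Z x ≠ 0) ∧
    ∀ γ ∈ K, ∀ x : X, dev x ∈ H → Z (γ • x) = l γ (Z x)

/-- The linear holonomy of `N` is trivial on all the `K`-irreducible factors of `V`. -/
def UnipotentOn (K N : Subgroup Γ) (V : Submodule ℝ E) : Prop :=
  ∀ W' W'' : Submodule ℝ E, LinInvariant l K W' → LinInvariant l K W'' → W' < W'' → W'' ≤ V →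
    (∀ Y : Submodule ℝ E, LinInvariant l K Y → W' ≤ Y → Y ≤ W'' → Y = W' ∨ Y = W'') →
    TrivialFactor l N W' W''

end lin

theorem lowerCentral_eq (N : Subgroup Γ) (j : ℕ) :
    Pool.Agent.NH11.CH.Nil.lowerCentral N j = lowerCentral N j := by
  induction j with
  | zero => rfl
  | succ j ih => rw [lowerCentral, Pool.Agent.NH11.CH.Nil.lowerCentral, ih]

/-- **Theorem.** Let `Γ \ X` be a closed affine manifold of positive dimension, with `X` connected,
such that no finite covering of it has a vector field without zeros (this is the case if its Euler
characteristic is not zero). Then there are a subgroup `G` of finite index and a `G`-invariant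
affine subspace `H` of positive dimension, which meets the developing image, such that for all
subgroups `K` of finite index in `G` the covering `K \ dev⁻¹(H)` has no tangent field without
zeros, there is no proper `K`-invariant star-shaped subset of `H`, and the normal subgroups of `K`
which act on `H` as nilpotent groups are unipotent. -/
theorem result [T2Space X] [ConnectedSpace X] [FiniteDimensional ℝ E] [Nontrivial E]
    {dev : X → E} {hol : Γ →* (E ≃ᵃ[ℝ] E)} (D : ClosedAffine X Γ E dev hol)
    (hno : ∀ K : Subgroup Γ, K.FiniteIndex → ¬ HasField (lin hol) dev K univ ⊤) :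
    ∃ (G : Subgroup Γ) (H : AffineSubspace ℝ E), G.FiniteIndex ∧ Invariant (act hol) G H ∧
      H.direction ≠ ⊥ ∧ (∃ x, dev x ∈ H) ∧ ∀ K ≤ G, K.FiniteIndex →
        ¬ HasField (lin hol) dev K H H.direction ∧ NoStar (act hol) K H ∧
          ∀ N : Subgroup Γ, NormalIn N K → NilpotentOn (act hol) N H →
            UnipotentOn (lin hol) K N H.direction := by
  obtain ⟨G, H, h1, h2, h3, h4, h5⟩ := Pool.Agent.NH11.CH.Nil.main
    ⟨D.loc, D.cont, D.equi, D.pd, D.cc⟩ hno
  refine ⟨G, H, h1, h2, h3, h4, fun K hK hKf => ?_⟩
  obtain ⟨a, b, c⟩ := h5 K hK hKf
  refine ⟨a, b, fun N hN hnil => c N hN ?_⟩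
  obtain ⟨c, hc⟩ := hnil
  refine ⟨c, fun z hz q hq => ?_⟩
  rw [lowerCentral_eq] at hz
  exact hc z hz q hq

end Pool.Agent.Results.MP_1fa9a4_gt.NilpotentNormalSubgroups
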